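import Pool.Agent.H98.CEL.STA

/-!
# The final chain for small `α`
-/

set_option autoImplicit false

open MeasureTheory ProbabilityTheory Filter Topology
open Pool.Agent.H95 Pool.Agent.H95.Cop Pool.Agent.H98.CE

namespace Pool.Agent.H98.CEL

/-- the second moment condition -/
lemma fna_two (v η S0 β E th : ℝ) (c r G A n J' : ℕ) (hv6 : 6 ≤ v) (hηv : 2 * η ≤ v)
    (hS0 : 0 < S0) (hSv : 16 / S0 ^ 2 ≤ v) (hβ : β = η * v ^ 2) (hη : 0 < η)
    (hE : E = Real.exp (v ^ c)) (hth : 1 ≤ th) (hr : (r : ℝ) ≤ v + 1)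
    (hG : (G : ℝ) ≤ Real.exp β) (hA : 1 ≤ A) (hn : 1 ≤ n) (hJ : v ^ (c + 5) ≤ J') :
    16 * ((A : ℝ) * (G : ℝ) ^ r * E ^ (r + 1)) ≤
      2 ^ J' * ((A : ℝ) * n * (2 * (1 / v) * S0) * th ^ r / 2) ^ 2 := by
  have hv0 : 0 < v := by linarith
  have hA1 : (1 : ℝ) ≤ A := by exact_mod_cast hA
  have hn1 : (1 : ℝ) ≤ n := by exact_mod_cast hn
  have hG0 : (0 : ℝ) ≤ G := Nat.cast_nonneg G
  have hβ0 : 0 < β := by rw [hβ]; positivity
  -- the left side
  have a1 : (G : ℝ) ^ r ≤ Real.exp (2 * η * v ^ 3) := by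
    calc (G : ℝ) ^ r ≤ (Real.exp β) ^ r := pow_le_pow_left₀ hG0 hG r
      _ = Real.exp (r * β) := by rw [← Real.exp_nat_mul]
      _ ≤ Real.exp (2 * η * v ^ 3) := by
        apply Real.exp_le_exp.mpr
        calc (r : ℝ) * β ≤ (2 * v) * β := mul_le_mul_of_nonneg_right (by linarith) hβ0.le
          _ = 2 * η * v ^ 3 := by rw [hβ]; ring
  have a2 : E ^ (r + 1) ≤ Real.exp (3 * v ^ (c + 1)) := by
    rw [hE, ← Real.exp_nat_mul]
    apply Real.exp_le_exp.mpr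
    push_cast
    calc ((r : ℝ) + 1) * v ^ c ≤ (3 * v) * v ^ c :=
          mul_le_mul_of_nonneg_right (by linarith) (by positivity)
      _ = 3 * v ^ (c + 1) := by ring
  have a3 : 16 * v ^ 2 ≤ S0 ^ 2 * Real.exp (3 * v) := by
    have h1 : 16 ≤ v * S0 ^ 2 := by
      rw [div_le_iff₀ (by positivity)] at hSv
      exact hSv
    have h2 : v ^ 3 ≤ Real.exp (3 * v) := by
      have h3 : v ≤ Real.exp v := by
        have := Real.add_one_le_exp v
        linarith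
      calc v ^ 3 ≤ (Real.exp v) ^ 3 := pow_le_pow_left₀ hv0.le h3 3
        _ = Real.exp (3 * v) := by rw [← Real.exp_nat_mul]; norm_num
    calc 16 * v ^ 2 ≤ v * S0 ^ 2 * v ^ 2 := mul_le_mul_of_nonneg_right h1 (by positivity)
      _ = S0 ^ 2 * v ^ 3 := by ring
      _ ≤ S0 ^ 2 * Real.exp (3 * v) := mul_le_mul_of_nonneg_left h2 (by positivity)
  -- the right side
  have b0 : (2 : ℝ) ^ J' ≥ Real.exp (v ^ (c + 5) / 2) := by
    have h1 : Real.exp (1 / 2) ≤ 2 := by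
      have h2 : (Real.exp (1 / 2)) ^ 2 ≤ 2 ^ 2 := by
        rw [← Real.exp_nat_mul]
        have := Real.exp_one_lt_d9
        norm_num
        linarith
      exact le_of_sq_le_sq h2 (by norm_num)
    calc (2 : ℝ) ^ J' ≥ (Real.exp (1 / 2)) ^ J' := pow_le_pow_left₀ (Real.exp_pos _).le h1 J'
      _ = Real.exp (J' * (1 / 2)) := by rw [← Real.exp_nat_mul]
      _ ≥ Real.exp (v ^ (c + 5) / 2) := by
        apply Real.exp_le_exp.mpr
        linarith
  have b1 : 3 * v + 2 * η * v ^ 3 + 3 * v ^ (c + 1) ≤ v ^ (c + 5) / 2 := by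
    have h1 : 2 * η * v ^ 3 ≤ v ^ (c + 4) := by
      calc 2 * η * v ^ 3 ≤ v * v ^ 3 := mul_le_mul_of_nonneg_right hηv (by positivity)
        _ = v ^ 4 := by ring
        _ ≤ v ^ (c + 4) := pow_le_pow_right₀ (by linarith) (by omega)
    have h2 : 3 * v ^ (c + 1) ≤ v ^ (c + 4) := by
      calc 3 * v ^ (c + 1) ≤ v ^ 3 * v ^ (c + 1) := by
            apply mul_le_mul_of_nonneg_right _ (by positivity)
            calc (3 : ℝ) ≤ v := by linarith
              _ = v ^ 1 := (pow_one v).symm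
              _ ≤ v ^ 3 := pow_le_pow_right₀ (by linarith) (by norm_num)
        _ = v ^ (c + 4) := by rw [← pow_add]; congr 1; ring
    have h3 : 3 * v ≤ v ^ (c + 4) := by
      calc 3 * v ≤ v * v := mul_le_mul_of_nonneg_right (by linarith) hv0.le
        _ = v ^ 2 := by ring
        _ ≤ v ^ (c + 4) := pow_le_pow_right₀ (by linarith) (by omega)
    have h4 : v ^ (c + 5) = v * v ^ (c + 4) := by rw [show c + 5 = (c + 4) + 1 from rfl, pow_succ]; ring
    rw [h4]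
    have h5 : 0 < v ^ (c + 4) := by positivity
    nlinarith
  have b2 : ((A : ℝ) * n * (2 * (1 / v) * S0) * th ^ r / 2) ^ 2 ≥ A * (S0 ^ 2 / v ^ 2) := by
    have h1 : (A : ℝ) * n * (2 * (1 / v) * S0) * th ^ r / 2 ≥ A * (S0 / v) := by
      have h2 : (A : ℝ) * n * (2 * (1 / v) * S0) * th ^ r / 2 = A * (S0 / v) * (n * th ^ r) := by
        field_simp
      rw [h2]
      have h3 : 1 ≤ (n : ℝ) * th ^ r := one_le_mul_of_one_le_of_one_le hn1 (one_le_pow₀ hth)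
      have h4 : 0 ≤ (A : ℝ) * (S0 / v) := by positivity
      nlinarith
    have h5 : ((A : ℝ) * (S0 / v)) ^ 2 ≤ ((A : ℝ) * n * (2 * (1 / v) * S0) * th ^ r / 2) ^ 2 :=
      pow_le_pow_left₀ (by positivity) h1 2
    refine le_trans ?_ h5
    have h6 : ((A : ℝ) * (S0 / v)) ^ 2 = A * (A * (S0 ^ 2 / v ^ 2)) := by
      rw [mul_pow, div_pow]; ring
    rw [h6]
    apply mul_le_mul_of_nonneg_left _ (by linarith)
    have h7 : 0 ≤ S0 ^ 2 / v ^ 2 := by positivity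
    nlinarith
  have hE0 : 0 ≤ E ^ (r + 1) := by rw [hE]; positivity
  have hA0 : (0 : ℝ) < A := by linarith
  have key : 16 * v ^ 2 * (Real.exp (2 * η * v ^ 3) * Real.exp (3 * v ^ (c + 1))) ≤
      S0 ^ 2 * 2 ^ J' := by
    calc 16 * v ^ 2 * (Real.exp (2 * η * v ^ 3) * Real.exp (3 * v ^ (c + 1)))
        ≤ S0 ^ 2 * Real.exp (3 * v) * (Real.exp (2 * η * v ^ 3) * Real.exp (3 * v ^ (c + 1))) :=
          mul_le_mul_of_nonneg_right a3 (by positivity)
      _ = S0 ^ 2 * Real.exp (3 * v + 2 * η * v ^ 3 + 3 * v ^ (c + 1)) := by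
          rw [Real.exp_add, Real.exp_add]; ring
      _ ≤ S0 ^ 2 * 2 ^ J' := by
          apply mul_le_mul_of_nonneg_left _ (by positivity)
          exact (Real.exp_le_exp.mpr b1).trans b0
  calc 16 * ((A : ℝ) * (G : ℝ) ^ r * E ^ (r + 1))
      ≤ 16 * ((A : ℝ) * Real.exp (2 * η * v ^ 3) * Real.exp (3 * v ^ (c + 1))) := by
        apply mul_le_mul_of_nonneg_left _ (by norm_num)
        apply mul_le_mul _ a2 hE0 (by positivity)
        exact mul_le_mul_of_nonneg_left a1 hA0.le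
    _ = A * (16 * v ^ 2 * (Real.exp (2 * η * v ^ 3) * Real.exp (3 * v ^ (c + 1)))) / v ^ 2 := by
        field_simp
    _ ≤ A * (S0 ^ 2 * 2 ^ J') / v ^ 2 := by
        apply div_le_div_of_nonneg_right _ (by positivity)
        exact mul_le_mul_of_nonneg_left key hA0.le
    _ = 2 ^ J' * (A * (S0 ^ 2 / v ^ 2)) := by field_simp
    _ ≤ _ := mul_le_mul_of_nonneg_left b2 (by positivity)

/-- the final inequality -/
lemma fna_end (v S0 e1 th : ℝ) (c r A n J' : ℕ) (hv1 : 1 ≤ v) (hS0 : 0 < S0) (he1 : 0 < e1)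
    (hth : 1 < th) (hr : v ≤ r) (hA : 1 ≤ A) (hn : 1 ≤ n) (hJ1 : 1 ≤ J')
    (hJ : (J' : ℝ) ≤ 2 * v ^ (c + 5))
    (hexp : v ^ (c + 7) * Real.exp (-(Real.log th * v)) ≤ e1 * S0 / 256) :
    4 * (2 * (A : ℝ) * n) / (e1 * (1 / v) / 2) <
      (A : ℝ) * n * (2 * (1 / v) * S0) * th ^ r / 2 / (4 * J') := by
  have hv0 : 0 < v := by linarith
  have hA0 : (0 : ℝ) < A := by exact_mod_cast hA
  have hn0 : (0 : ℝ) < n := by exact_mod_cast hn
  have hJ0 : (0 : ℝ) < J' := by exact_mod_cast hJ1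
  have h1 : Real.exp (Real.log th * v) ≤ th ^ r := by
    have h2 : th ^ r = Real.exp (Real.log th * r) := by
      rw [mul_comm, Real.exp_nat_mul, Real.exp_log (by linarith)]
    rw [h2]
    apply Real.exp_le_exp.mpr
    exact mul_le_mul_of_nonneg_left hr (Real.log_pos hth).le
  have h3 : v ^ (c + 7) ≤ e1 * S0 / 256 * th ^ r := by
    calc v ^ (c + 7) = v ^ (c + 7) * Real.exp (-(Real.log th * v)) *
          Real.exp (Real.log th * v) := by
          rw [mul_assoc, ← Real.exp_add]; simp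
      _ ≤ e1 * S0 / 256 * Real.exp (Real.log th * v) :=
          mul_le_mul_of_nonneg_right hexp (Real.exp_pos _).le
      _ ≤ e1 * S0 / 256 * th ^ r := mul_le_mul_of_nonneg_left h1 (by positivity)
  rw [div_lt_div_iff₀ (by positivity) (by positivity)]
  have h4 : 4 * (2 * (A : ℝ) * n) * (4 * J') ≤ 64 * (A * n) * v ^ (c + 5) := by
    have : 0 ≤ (A : ℝ) * n := by positivity
    nlinarith
  refine lt_of_le_of_lt h4 ?_
  have h5 : (A : ℝ) * n * (2 * (1 / v) * S0) * th ^ r / 2 * (e1 * (1 / v) / 2) =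
      128 * (A * n) * (e1 * S0 / 256 * th ^ r) / v ^ 2 := by
    field_simp
    ring
  rw [h5, lt_div_iff₀ (by positivity)]
  have h6 : 64 * ((A : ℝ) * n) * v ^ (c + 5) * v ^ 2 = 64 * (A * n) * v ^ (c + 7) := by
    rw [show c + 7 = (c + 5) + 2 from rfl, pow_add v (c + 5) 2]; ring
  rw [h6]
  have h7 : 0 < (A : ℝ) * n := by positivity
  have h8 : 0 < v ^ (c + 7) := by positivity
  have h9 : 128 * ((A : ℝ) * n) * v ^ (c + 7) ≤ 128 * (A * n) * (e1 * S0 / 256 * th ^ r) :=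
    mul_le_mul_of_nonneg_left h3 (by positivity)
  have h10 : 0 < (A : ℝ) * n * v ^ (c + 7) := by positivity
  nlinarith

theorem pf_FNA (hCHF : T_CHF) (hAS1 : T_AS1) (hAS2 : T_AS2) : T_FNA := by
  intro d ϑ s e1 η e l J t hd hϑ he0 hee1 he1 hη hOB ht hth
  obtain ⟨c, hc⟩ := hOB
  have he10 : 0 < e1 := he0.trans hee1
  obtain ⟨S0, hS0⟩ : ∃ S0 : ℝ, S0 = ∑ j ∈ Finset.Icc (l + 3) J, t j := ⟨_, rfl⟩
  rw [← hS0] at hth
  have hS00 : 0 ≤ S0 := by rw [hS0]; exact Finset.sum_nonneg fun j _ => ht j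
  have hS0p : 0 < S0 := by
    rcases hS00.lt_or_eq with h | h
    · exact h
    · rw [← h] at hth; simp at hth; linarith
  obtain ⟨th, hthd⟩ : ∃ th : ℝ, th = e * η * S0 := ⟨_, rfl⟩
  rw [← hthd] at hth
  have hlogth : 0 < Real.log th := Real.log_pos hth
  have ev1 : ∀ᶠ α in 𝓝[>] (0 : ℝ), 2 ≤ Real.exp (η / α ^ 2) :=
    (tend_exp η hη).eventually (eventually_ge_atTop _)
  have ev2 := (hAS1 (c + 7) (e1 * S0 / 256) (Real.log th) (by positivity) hlogth).1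
  have ev3 := (hAS1 (c + 1) (1 / 2 / 8) (η / 2) (by norm_num) (by positivity)).2.1
  have ev4 := ev_lt (1 / (4 * ((l : ℝ) + 2))) (by positivity)
  have ev5 := ev_lt (1 / 6) (by norm_num)
  have ev5' := ev_lt (1 / (2 * η)) (by positivity)
  have ev6 := ev_lt ((e1 - e) * η / (e1 * 3)) (div_pos (mul_pos (by linarith) hη) (by positivity))
  have ev7 := ev_lt (1 / (16 / S0 ^ 2)) (by positivity)
  filter_upwards [hc, ev1, ev2, ev3, ev4, ev5, ev5', ev6, ev7, self_mem_nhdsWithin] with α hα h1 h2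
    h3 h4 h5 h5' h6 h7 hα0
  have hα0' : 0 < α := hα0
  intro K ν ℓ hHY
  obtain ⟨n, hn1, hn2, hobj⟩ := hα K ν ℓ hHY
  obtain ⟨hprob, hexp, hℓ, hHK, hMM⟩ := hHY
  obtain ⟨β, hβ⟩ : ∃ β : ℝ, β = η / α ^ 2 := ⟨_, rfl⟩
  obtain ⟨v, hv⟩ : ∃ v : ℝ, v = 1 / α := ⟨_, rfl⟩
  obtain ⟨κ, hκ⟩ : ∃ κ : ℝ, κ = e1 * α / 2 := ⟨_, rfl⟩
  obtain ⟨γ, hγ⟩ : ∃ γ : ℝ, γ = 1 / (1 + α) := ⟨_, rfl⟩
  have hβ0 : 0 < β := by rw [hβ]; positivity
  have hv0 : 0 < v := by rw [hv]; positivity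
  have hαv : α * v = 1 := by rw [hv]; field_simp
  have hαv' : α = 1 / v := by rw [hv]; field_simp
  have hβv : β = η * v ^ 2 := by rw [hβ, hv]; field_simp
  have hv6 : 6 ≤ v := by rw [hv, le_div_iff₀ hα0']; linarith
  have hv1 : 1 ≤ v := by linarith
  have hηv : 2 * η ≤ v := by
    rw [hv, le_div_iff₀ hα0']
    rw [lt_div_iff₀ (by positivity)] at h5'
    linarith
  have hSv : 16 / S0 ^ 2 ≤ v := by
    rw [hv, le_div_iff₀ hα0']
    rw [lt_div_iff₀ (by positivity)] at h7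
    linarith
  have hα1 : α < 1 := by linarith
  have hα' : 0 < 1 + α := by linarith
  have hκ0 : 0 < κ := by rw [hκ]; positivity
  have hκ1 : κ ≤ 1 := by rw [hκ]; nlinarith
  have hγ0 : 0 < γ := by rw [hγ]; positivity
  have hγ1 : γ ≤ 1 := by rw [hγ, div_le_one hα']; linarith
  have hκγ : κ ≤ κ ^ γ := by
    have := Real.rpow_le_rpow_of_exponent_ge hκ0 hκ1 hγ1
    rwa [Real.rpow_one] at this
  rw [← hβ] at h1 hn2
  -- the numbers
  obtain ⟨G, hG⟩ : ∃ G : ℕ, G = ⌊Real.exp β⌋₊ := ⟨_, rfl⟩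
  have hGX : (G : ℝ) ≤ Real.exp β := by rw [hG]; exact Nat.floor_le (Real.exp_pos _).le
  have hXG : Real.exp β < G + 1 := by rw [hG]; exact Nat.lt_floor_add_one _
  have hGr : (1 : ℝ) < G + 1 - 0 := by linarith
  have hG1 : 1 ≤ G := by
    have : (0 : ℝ) < G := by linarith
    exact_mod_cast this
  have hG1' : (1 : ℝ) ≤ G := by exact_mod_cast hG1
  have hGh : Real.exp β / 2 ≤ G := by linarith
  obtain ⟨r, hr⟩ : ∃ r : ℕ, r = ⌈v⌉₊ := ⟨_, rfl⟩
  have hr1 : v ≤ r := by rw [hr]; exact Nat.le_ceil v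
  have hr2 : (r : ℝ) ≤ v + 1 := by rw [hr]; exact (Nat.ceil_lt_add_one hv0.le).le
  have hrp : 1 ≤ r := by
    have : (0 : ℝ) < r := by linarith
    exact_mod_cast this
  obtain ⟨A, hA⟩ : ∃ A : ℕ, A = r * (G + 1) := ⟨_, rfl⟩
  have hA1 : 1 ≤ A := by rw [hA]; exact Nat.mul_pos hrp (by omega)
  obtain ⟨J', hJ'⟩ : ∃ J' : ℕ, J' = ⌈v ^ (c + 5)⌉₊ := ⟨_, rfl⟩
  have hJ1 : v ^ (c + 5) ≤ J' := by rw [hJ']; exact Nat.le_ceil _
  have hv5 : 1 ≤ v ^ (c + 5) := one_le_pow₀ hv1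
  have hJ2 : (J' : ℝ) ≤ 2 * v ^ (c + 5) := by
    have : (J' : ℝ) < v ^ (c + 5) + 1 := by rw [hJ']; exact Nat.ceil_lt_add_one (by positivity)
    linarith
  have hJp : 1 ≤ J' := by
    have : (0 : ℝ) < J' := by linarith
    exact_mod_cast this
  obtain ⟨HH, hHH⟩ : ∃ HH : ℝ, HH = ∑ g ∈ Finset.Ico 2 (G + 2), 1 / ((g : ℝ) + 1) := ⟨_, rfl⟩
  obtain ⟨hH1, hH2⟩ := (hAS2 α hα0').2.2 G hG1
  rw [← hHH] at hH1 hH2
  have hHH0 : 0 ≤ HH := by rw [hHH]; exact Finset.sum_nonneg fun g _ => by positivity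
  have hlogG : β - 3 + 2 ≤ Real.log G := by
    have h8 : Real.log (Real.exp β / 2) ≤ Real.log G := Real.log_le_log (by positivity) hGh
    rw [Real.log_div (by positivity) (by norm_num), Real.log_exp] at h8
    have := Real.log_two_lt_d9
    linarith
  have hω := omega_le α β κ γ e1 e η 3 HH (Real.log G) hα0' hα1 he10 hκ hβ hκγ hHH0 (by norm_num)
    hH1 hlogG h6
  have hn0 : (0 : ℝ) < n := by exact_mod_cast hn1
  have h4' : α * ((l : ℝ) + 2) ≤ 1 / 4 := by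
    rw [lt_div_iff₀ (by positivity)] at h4
    linarith
  rw [← hv] at h2 h3
  have hMn : Real.exp β * n ≤ Real.exp (β * (l + 3 / 2)) := by
    calc Real.exp β * n ≤ Real.exp β * Real.exp (β * (l + 1 / 2)) :=
          mul_le_mul_of_nonneg_left hn2 (Real.exp_pos _).le
      _ = Real.exp (β * (l + 3 / 2)) := by rw [← Real.exp_add]; congr 1; ring
  have hp := p_le α β η v (1 / 2) (Real.exp β * n) l (c + 1) hα0' hβ0 hv0 hβ hMn h4' h3
  have hMr : ((A + A : ℕ) : ℝ) ≤ 8 * v * Real.exp β := by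
    have h8 : ((A + A : ℕ) : ℝ) = 2 * (r * (G + 1)) := by rw [hA]; push_cast; ring
    rw [h8]
    have h9 : (r : ℝ) * (G + 1) ≤ (2 * v) * (2 * Real.exp β) :=
      mul_le_mul (by linarith) (by linarith) (by positivity) (by positivity)
    linarith
  have hp' : ((A + A : ℕ) : ℝ) * (n * v ^ c * Real.exp (-(β * ((l + 3 : ℕ) : ℝ) / (1 + α)))) ≤
      1 / 2 := by
    calc ((A + A : ℕ) : ℝ) * (n * v ^ c * Real.exp (-(β * ((l + 3 : ℕ) : ℝ) / (1 + α))))
        ≤ 8 * v * Real.exp β *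
          (n * v ^ c * Real.exp (-(β * ((l + 3 : ℕ) : ℝ) / (1 + α)))) :=
          mul_le_mul_of_nonneg_right hMr (by positivity)
      _ = 8 * (v ^ (c + 1) * (Real.exp β * n *
            Real.exp (-(β * ((l + 3 : ℕ) : ℝ) / (1 + α))))) := by
          rw [pow_succ]; ring
      _ ≤ 8 * (1 / 2 / 8) := mul_le_mul_of_nonneg_left hp (by norm_num)
      _ = 1 / 2 := by norm_num
  have hE1 : (1 : ℝ) ≤ Real.exp (v ^ c) := Real.one_le_exp (by positivity)
  rw [← hv, ← hβ] at hobj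
  rw [← hκ] at hHK
  have h2α : (0 : ℝ) < 2 * α := by positivity
  have hsum : ∑ j ∈ Finset.Icc (l + 3) J, 2 * α * t j = 2 * (1 / v) * S0 := by
    rw [← Finset.mul_sum, ← hS0, ← hαv']
  have hωS : e * η / (2 * α) * (2 * (1 / v) * S0) = th := by
    rw [← hαv', hthd]; field_simp
  have htwo := fna_two v η S0 β (Real.exp (v ^ c)) th c r G A n J' hv6 hηv hS0p hSv hβv hη rfl
    hth.le hr2 hGX hA1 hn1 hJ1
  have hA0 : (0 : ℝ) < A := by exact_mod_cast hA1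
  have hth0 : 0 < th := by linarith
  obtain ⟨s', hs'0, hs'⟩ := hCHF K ν ℓ α β κ n J (fun j => 2 * α * t j) (v ^ c)
    (Real.exp (v ^ c)) hℓ hα0' hβ0.le hκ0 hκ1 hHK hn1 hE1 hobj
    (fun j => mul_nonneg h2α.le (ht j)) (l + 3) (A + A) G A r (by omega) hG1
    (by rw [← hA]) hp' (e * η / (2 * α))
    ((A : ℝ) * n * (2 * (1 / v) * S0) * th ^ r / 2) J'
    (div_nonneg (mul_nonneg he0.le hη.le) h2α.le) (by rw [← hγ, ← hHH]; exact hω)
    (by rw [hsum, hωS]) (by positivity) hJp htwo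
  have hend := fna_end v S0 e1 th c r A n J' hv1 hS0p he10 hth hr1 hA1 hn1 hJp hJ2 (by
    have : Real.log th / α = Real.log th * v := by rw [hv]; ring
    rwa [this] at h2)
  refine ⟨(A + A) * n, s', Nat.mul_pos (by omega) hn1, hs'0, ?_⟩
  refine lt_of_lt_of_le ?_ hs'
  rw [← hαv'] at hend ⊢
  have e1' : (((A + A) * n : ℕ) : ℝ) = 2 * (A : ℝ) * n := by push_cast; ring
  rw [e1']
  exact hend

end Pool.Agent.H98.CEL
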