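import Pool.Agent.H98.CE.Targets

/-!
# One step of the recursion for small `α`
-/

set_option autoImplicit false

open MeasureTheory ProbabilityTheory Filter Topology
open Pool.Agent.H95 Pool.Agent.H95.Cop Pool.Agent.H98.CE

namespace Pool.Agent.H98.CEL

lemma cv_scale (t : ℕ → ℝ) (thr : ℕ) (c : ℝ) (m : ℕ) : ∀ s : ℕ,
    cv (fun j => c * t j) thr m s = c ^ m * cv t thr m s := by
  induction m with
  | zero => intro s; simp [cv]
  | succ m ih =>
    intro s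
    simp only [cv]
    rw [Finset.mul_sum]
    refine Finset.sum_congr rfl fun j _ => ?_
    rw [ih]
    ring

lemma nx_scale (t : ℕ → ℝ) (thr ms : ℕ) (a ω e : ℝ) (ha : a ≠ 0) (j : ℕ) :
    nx (fun j => a * t j) thr ms (ω / a) e j = a * nx t thr ms ω e j := by
  unfold nx
  have h1 : ∀ S : ℝ, a * (e * S) = e * (a * S) := fun S => by ring
  rw [h1]
  congr 1
  rw [Finset.mul_sum]
  refine Finset.sum_congr rfl fun m _ => ?_
  rw [cv_scale, div_pow, pow_succ]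
  field_simp

/-- eventually statements for small `α` -/
lemma ev_lt (a : ℝ) (ha : 0 < a) : ∀ᶠ α in 𝓝[>] (0 : ℝ), α < a :=
  mem_nhdsWithin_of_mem_nhds (Iio_mem_nhds ha)

lemma tend_exp (η : ℝ) (hη : 0 < η) :
    Tendsto (fun α : ℝ => Real.exp (η / α ^ 2)) (𝓝[>] (0 : ℝ)) atTop := by
  apply Real.tendsto_exp_atTop.comp
  have h2 : Tendsto (fun α : ℝ => α ^ 2) (𝓝[>] (0 : ℝ)) (𝓝[>] (0 : ℝ)) := by
    rw [tendsto_nhdsWithin_iff]
    refine ⟨?_, ?_⟩
    · have : Tendsto (fun lam : ℝ => lam ^ 2) (𝓝 (0 : ℝ)) (𝓝 (0 ^ 2)) :=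
        (continuous_pow 2).tendsto 0
      rw [zero_pow two_ne_zero] at this
      exact this.mono_left nhdsWithin_le_nhds
    · filter_upwards [self_mem_nhdsWithin] with lam hlam
      have hlam1 : 0 < lam := hlam
      exact pow_pos hlam1 2
  simp_rw [div_eq_mul_inv]
  exact (tendsto_inv_nhdsGT_zero.comp h2).const_mul_atTop hη

/-- the numbers of one step -/
lemma numbers (X u : ℝ) (ms : ℕ) (hms : 1 ≤ ms) (hu0 : 0 < u) (hu1 : u < 1)
    (hX : 16 * ms / u + 16 ≤ X) :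
    ∃ M G A : ℕ, 1 ≤ M ∧ 1 ≤ G ∧ G + 2 ≤ M ∧ A + (ms - 1) * (G + 1) ≤ M ∧ (M : ℝ) ≤ X ∧
      (1 - u) * M ≤ A * (1 - u / 8) ∧ u / (8 * ms) * X ≤ G ∧ (G : ℝ) ≤ X := by
  have hms0 : (0 : ℝ) < ms := by exact_mod_cast hms
  have hms1 : (1 : ℝ) ≤ ms := by exact_mod_cast hms
  have hX0 : 0 < X := lt_of_lt_of_le (by positivity) hX
  have h16 : 16 * ms ≤ u * X := by
    have h1 : 16 * ms / u ≤ X := by linarith
    rw [div_le_iff₀ hu0] at h1
    linarith
  have hX16 : 16 ≤ X := by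
    have : 0 < 16 * ms / u := by positivity
    linarith
  set M : ℕ := ⌊X⌋₊ with hM
  have hMX : (M : ℝ) ≤ X := Nat.floor_le hX0.le
  have hXM : X < M + 1 := Nat.lt_floor_add_one X
  have hM2 : X / 2 ≤ M := by linarith
  have hM15 : (15 : ℝ) ≤ M := by linarith
  set v : ℝ := u / 2 * M / ms with hv
  have hv0 : 0 ≤ v := by positivity
  set G : ℕ := ⌊v⌋₊ with hG
  have hGv : (G : ℝ) ≤ v := Nat.floor_le hv0
  have hvG : v < G + 1 := Nat.lt_floor_add_one v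
  have hvX : u / (4 * ms) * X ≤ v := by
    rw [hv]
    have e1 : u / (4 * ms) * X = u / 2 * (X / 2) / ms := by field_simp; ring
    rw [e1]
    gcongr
  have hv4 : 4 ≤ v := by
    refine le_trans ?_ hvX
    rw [div_mul_eq_mul_div, le_div_iff₀ (by positivity)]
    linarith
  have hG3 : (3 : ℝ) < G := by linarith
  have hvM : v ≤ u / 2 * M := by
    rw [hv, div_le_iff₀ hms0]
    have : 0 ≤ u / 2 * (M : ℝ) := by positivity
    nlinarith
  have hGM : (G : ℝ) + 2 ≤ M := by nlinarith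
  have hmsG : ((ms : ℝ) - 1) * (G + 1) ≤ u / 2 * M + ms := by
    have h1 : ((ms : ℝ) - 1) * (G + 1) ≤ ((ms : ℝ) - 1) * (v + 1) :=
      mul_le_mul_of_nonneg_left (by linarith) (by linarith)
    have h2 : (ms : ℝ) * v = u / 2 * M := by rw [hv]; field_simp
    nlinarith
  have hms' : (((ms - 1 : ℕ) : ℝ)) = (ms : ℝ) - 1 := by
    rw [Nat.cast_sub hms]; simp
  have hle : (ms - 1) * (G + 1) ≤ M := by
    have : (((ms - 1) * (G + 1) : ℕ) : ℝ) ≤ M := by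
      push_cast
      rw [hms']
      refine hmsG.trans ?_
      nlinarith
    exact_mod_cast this
  refine ⟨M, G, M - (ms - 1) * (G + 1), ?_, ?_, ?_, ?_, hMX, ?_, ?_, ?_⟩
  · have : (1 : ℝ) ≤ M := by linarith
    exact_mod_cast this
  · have : (1 : ℝ) ≤ G := by linarith
    exact_mod_cast this
  · have : ((G + 2 : ℕ) : ℝ) ≤ M := by push_cast; exact hGM
    exact_mod_cast this
  · omega
  · have hA : ((M - (ms - 1) * (G + 1) : ℕ) : ℝ) = M - ((ms : ℝ) - 1) * (G + 1) := by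
      rw [Nat.cast_sub hle]; push_cast; rw [hms']
    rw [hA]
    have h1 : (M : ℝ) - (u / 2 * M + ms) ≤ M - ((ms : ℝ) - 1) * (G + 1) := by linarith
    have h2 : (ms : ℝ) ≤ u / 8 * M := by nlinarith
    have h3 : (1 - u / 2 - u / 8) * M ≤ M - ((ms : ℝ) - 1) * (G + 1) := by nlinarith
    have h4 : (1 - u / 2 - u / 8) * M * (1 - u / 8) ≤
        (M - ((ms : ℝ) - 1) * (G + 1)) * (1 - u / 8) :=
      mul_le_mul_of_nonneg_right h3 (by linarith)
    refine le_trans ?_ h4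
    have h5 : (1 - u) ≤ (1 - u / 2 - u / 8) * (1 - u / 8) := by nlinarith
    have h6 : 0 ≤ (M : ℝ) := Nat.cast_nonneg M
    nlinarith
  · have h1 : u / (8 * ms) * X = (u / (4 * ms) * X) / 2 := by field_simp; ring
    rw [h1]
    linarith
  · linarith

/-- the weight of a step -/
lemma omega_le (α β κ γ e1 e η C' HH lG : ℝ) (hα0 : 0 < α) (hα1 : α < 1) (he10 : 0 < e1)
    (hκ : κ = e1 * α / 2) (hβ : β = η / α ^ 2) (hκγ : κ ≤ κ ^ γ) (hHH0 : 0 ≤ HH)
    (hC'0 : 0 < C') (hH1 : lG - 2 ≤ HH) (hlogG : β - C' + 2 ≤ lG)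
    (h62 : α < (e1 - e) * η / (e1 * C')) : e * η / (2 * α) ≤ κ ^ γ * HH := by
  have hκ0 : 0 < κ := by rw [hκ]; positivity
  have h8 : κ * (β - C') ≤ κ ^ γ * HH := by
    calc κ * (β - C') ≤ κ * HH := mul_le_mul_of_nonneg_left (by linarith) hκ0.le
      _ ≤ κ ^ γ * HH := mul_le_mul_of_nonneg_right hκγ hHH0
  refine le_trans ?_ h8
  rw [lt_div_iff₀ (by positivity)] at h62
  have h9 : α ^ 2 * (e1 * C') ≤ (e1 - e) * η := by
    have : α ^ 2 * (e1 * C') ≤ α * (e1 * C') := by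
      apply mul_le_mul_of_nonneg_right _ (by positivity)
      nlinarith
    linarith
  rw [div_le_iff₀ (by positivity)]
  have h10 : κ * (β - C') * (2 * α) = e1 * η - e1 * C' * α ^ 2 := by
    rw [hκ, hβ]; field_simp
  rw [h10]
  nlinarith

lemma R_le (κγ HH β η v : ℝ) (hκγ1 : κγ ≤ 1) (hHH0 : 0 ≤ HH) (hH : HH ≤ 1 + β)
    (hβv : β = η * v ^ 2) (hv4 : 4 ≤ v) (hv1η : 1 + η ≤ v) : κγ * HH ≤ v ^ 3 := by
  have h8 : κγ * HH ≤ 1 * (1 + β) := mul_le_mul hκγ1 hH hHH0 (by norm_num)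
  refine h8.trans ?_
  rw [one_mul, hβv]
  have h9 : 1 ≤ v ^ 2 := one_le_pow₀ (by linarith)
  calc 1 + η * v ^ 2 ≤ v ^ 2 + η * v ^ 2 := by linarith
    _ = (1 + η) * v ^ 2 := by ring
    _ ≤ v * v ^ 2 := mul_le_mul_of_nonneg_right hv1η (by positivity)
    _ = v ^ 3 := by ring

lemma link_ge (α β κ e1 η v : ℝ) (l N : ℕ) (hα0 : 0 < α) (hβ0 : 0 < β) (hκ : κ = e1 * α / 2)
    (hκ0 : 0 < κ) (hβ : β = η / α ^ 2) (hαv : α * v = 1) (hN0 : (0 : ℝ) < N)
    (hN : (N : ℝ) ≤ Real.exp (β * (l + 3 / 2))) (h4' : α * ((l : ℝ) + 2) ≤ 1 / 4)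
    (h2 : v ^ 1 * Real.exp (-(η / 4 / α ^ 2)) ≤ e1 / 2) :
    Real.exp (-(β * (((l + 3 : ℕ) : ℝ) - 1))) ≤ lk α κ N := by
  unfold lk
  have h10 : (Real.exp (β * (l + 3 / 2))) ^ (-(1 + α)) ≤ (N : ℝ) ^ (-(1 + α)) :=
    Real.rpow_le_rpow_of_nonpos hN0 hN (by linarith)
  have h11 : (Real.exp (β * (l + 3 / 2))) ^ (-(1 + α)) =
      Real.exp (-(β * ((l + 3 / 2) * (1 + α)))) := by
    rw [← Real.exp_mul]; congr 1; ring
  rw [h11] at h10
  refine le_trans ?_ (mul_le_mul_of_nonneg_left h10 hκ0.le)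
  have h12 : Real.exp (-(β / 4)) ≤ κ := by
    have h14 : η / 4 / α ^ 2 = β / 4 := by rw [hβ]; ring
    rw [h14, pow_one] at h2
    have h15 : α * (v * Real.exp (-(β / 4))) ≤ α * (e1 / 2) :=
      mul_le_mul_of_nonneg_left h2 hα0.le
    rw [← mul_assoc, hαv, one_mul] at h15
    rw [hκ]; linarith
  calc Real.exp (-(β * (((l + 3 : ℕ) : ℝ) - 1)))
      ≤ Real.exp (-(β / 4) + -(β * ((l + 3 / 2) * (1 + α)))) := by
        apply Real.exp_le_exp.mpr
        push_cast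
        have h16 : 0 ≤ β * (1 / 4 - α * ((l : ℝ) + 3 / 2)) := by
          apply mul_nonneg hβ0.le
          nlinarith
        nlinarith
    _ = Real.exp (-(β / 4)) * Real.exp (-(β * ((l + 3 / 2) * (1 + α)))) := Real.exp_add _ _
    _ ≤ κ * Real.exp (-(β * ((l + 3 / 2) * (1 + α)))) :=
        mul_le_mul_of_nonneg_right h12 (Real.exp_pos _).le

lemma p_le (α β η v u Mn : ℝ) (l c : ℕ) (hα0 : 0 < α) (hβ0 : 0 < β) (hv0 : 0 < v)
    (hβ : β = η / α ^ 2) (hMn : Mn ≤ Real.exp (β * (l + 3 / 2)))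
    (h4' : α * ((l : ℝ) + 2) ≤ 1 / 4)
    (h3 : v ^ c * Real.exp (-(η / 2 / α ^ 2)) ≤ u / 8) :
    v ^ c * (Mn * Real.exp (-(β * ((l + 3 : ℕ) : ℝ) / (1 + α)))) ≤ u / 8 := by
  have hα' : 0 < 1 + α := by linarith
  have h14 : η / 2 / α ^ 2 = β / 2 := by rw [hβ]; ring
  rw [h14] at h3
  refine le_trans ?_ h3
  calc v ^ c * (Mn * Real.exp (-(β * ((l + 3 : ℕ) : ℝ) / (1 + α))))
      ≤ v ^ c * (Real.exp (β * (l + 3 / 2)) *
          Real.exp (-(β * ((l + 3 : ℕ) : ℝ) / (1 + α)))) := by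
        apply mul_le_mul_of_nonneg_left _ (by positivity)
        exact mul_le_mul_of_nonneg_right hMn (Real.exp_pos _).le
    _ ≤ v ^ c * Real.exp (-(β / 2)) := by
        apply mul_le_mul_of_nonneg_left _ (by positivity)
        rw [← Real.exp_add]
        apply Real.exp_le_exp.mpr
        push_cast
        have h16 : β * ((l : ℝ) + 2) ≤ β * ((l : ℝ) + 3) / (1 + α) := by
          rw [le_div_iff₀ hα', mul_assoc]
          apply mul_le_mul_of_nonneg_left _ hβ0.le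
          nlinarith
        nlinarith

lemma const_one (v : ℝ) (c ms : ℕ) (hv : 4 ≤ v) (hvms : (ms : ℝ) ≤ v) :
    (ms : ℝ) * (v ^ c * v ^ 3) ^ ms ≤ v ^ ((c + 3) * ms + 4) := by
  have hv0 : 0 < v := by linarith
  have h8 : (v ^ c * v ^ 3) ^ ms = v ^ ((c + 3) * ms) := by
    rw [← pow_add, ← pow_mul]
  rw [h8]
  calc (ms : ℝ) * v ^ ((c + 3) * ms) ≤ v * v ^ ((c + 3) * ms) :=
        mul_le_mul_of_nonneg_right hvms (by positivity)
    _ = v ^ ((c + 3) * ms + 1) := by rw [pow_succ]; ring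
    _ ≤ v ^ ((c + 3) * ms + 4) := pow_le_pow_right₀ (by linarith) (by omega)

lemma const_two (v β η : ℝ) (c ms M : ℕ) (hms : 1 ≤ ms) (hv : 4 ≤ v) (hvms : (ms : ℝ) ≤ v)
    (hvη : ((ms : ℝ) + 1) * η ≤ v) (hβv : β = η * v ^ 2) (hMX : (M : ℝ) ≤ Real.exp β) :
    (ms : ℝ) * (M : ℝ) ^ (ms + 1) * Real.exp (v ^ c) ^ ms ≤
      Real.exp (v ^ ((c + 3) * ms + 4)) := by
  have hv0 : 0 < v := by linarith
  have hM0 : (0 : ℝ) ≤ M := Nat.cast_nonneg M
  have h8 : (ms : ℝ) * (M : ℝ) ^ (ms + 1) * Real.exp (v ^ c) ^ ms ≤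
      Real.exp (v + ((ms : ℝ) + 1) * β + ms * v ^ c) := by
    rw [Real.exp_add, Real.exp_add]
    have a1 : (ms : ℝ) ≤ Real.exp v := by
      have := Real.add_one_le_exp v
      linarith
    have a2 : (M : ℝ) ^ (ms + 1) ≤ Real.exp (((ms : ℝ) + 1) * β) := by
      have := pow_le_pow_left₀ hM0 hMX (ms + 1)
      rw [← Real.exp_nat_mul] at this
      push_cast at this
      exact this
    have a3 : Real.exp (v ^ c) ^ ms = Real.exp (ms * v ^ c) := by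
      rw [← Real.exp_nat_mul]
    rw [a3]
    exact mul_le_mul_of_nonneg_right (mul_le_mul a1 a2 (by positivity) (Real.exp_pos _).le)
      (Real.exp_pos _).le
  refine h8.trans (Real.exp_le_exp.mpr ?_)
  have b1 : v ≤ v ^ (c + 3) := by
    calc v = v ^ 1 := (pow_one v).symm
      _ ≤ v ^ (c + 3) := pow_le_pow_right₀ (by linarith) (by omega)
  have b2 : ((ms : ℝ) + 1) * β ≤ v ^ (c + 3) := by
    rw [hβv]
    calc ((ms : ℝ) + 1) * (η * v ^ 2) = (((ms : ℝ) + 1) * η) * v ^ 2 := by ring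
      _ ≤ v * v ^ 2 := mul_le_mul_of_nonneg_right hvη (by positivity)
      _ = v ^ 3 := by ring
      _ ≤ v ^ (c + 3) := pow_le_pow_right₀ (by linarith) (by omega)
  have b3 : (ms : ℝ) * v ^ c ≤ v ^ (c + 3) := by
    calc (ms : ℝ) * v ^ c ≤ v * v ^ c := mul_le_mul_of_nonneg_right hvms (by positivity)
      _ = v ^ (c + 1) := by rw [pow_succ]; ring
      _ ≤ v ^ (c + 3) := pow_le_pow_right₀ (by linarith) (by omega)
  calc v + ((ms : ℝ) + 1) * β + ms * v ^ c ≤ 3 * v ^ (c + 3) := by linarith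
    _ ≤ v * v ^ (c + 3) := mul_le_mul_of_nonneg_right (by linarith) (by positivity)
    _ = v ^ (c + 4) := by rw [show c + 4 = (c + 3) + 1 from rfl, pow_succ]; ring
    _ ≤ v ^ ((c + 3) * ms + 4) := by
      apply pow_le_pow_right₀ (by linarith)
      have : c + 3 ≤ (c + 3) * ms := Nat.le_mul_of_pos_right _ hms
      omega

theorem pf_STA (hSTP : T_STP) (hOMN : T_OMN) (hAS1 : T_AS1) (hAS2 : T_AS2) : T_STA := by
  intro d ϑ s e1 η e l J ms t hd hϑ he0 hee1 he1 hη hms hOB ht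
  obtain ⟨c, hc⟩ := hOB
  set u : ℝ := 1 - e with hu
  have hu0 : 0 < u := by rw [hu]; linarith
  have hu1 : u < 1 := by rw [hu]; linarith
  have he10 : 0 < e1 := he0.trans hee1
  have hms0 : (0 : ℝ) < ms := by exact_mod_cast hms
  have hms1 : (1 : ℝ) ≤ ms := by exact_mod_cast hms
  obtain ⟨C', hC'⟩ : ∃ C' : ℝ, C' = 2 - Real.log (u / (8 * ms)) := ⟨_, rfl⟩
  have hC'0 : 0 < C' := by
    have : Real.log (u / (8 * ms)) ≤ 0 := by
      apply Real.log_nonpos (by positivity)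
      rw [div_le_one (by positivity)]
      linarith
    rw [hC']; linarith
  have hη1 : 0 < ((ms : ℝ) + 1) * η := by positivity
  have ev1 : ∀ᶠ α in 𝓝[>] (0 : ℝ), 16 * ms / u + 16 ≤ Real.exp (η / α ^ 2) :=
    (tend_exp η hη).eventually (eventually_ge_atTop _)
  have ev2 := (hAS1 1 (e1 / 2) (η / 4) (by positivity) (by positivity)).2.1
  have ev3 := (hAS1 c (u / 8) (η / 2) (by positivity) (by positivity)).2.1
  have ev4 := ev_lt (1 / (4 * ((l : ℝ) + 2))) (by positivity)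
  have ev5 := ev_lt (1 / 4) (by norm_num)
  have ev5' := ev_lt (1 / (ms + (ms + 1) * η)) (by positivity)
  have ev6 := ev_lt ((e1 - e) * η / (e1 * C'))
    (div_pos (mul_pos (by linarith) hη) (by positivity))
  have ev7 := ev_lt (1 / (1 + η)) (by positivity)
  refine ⟨(c + 3) * ms + 4, ?_⟩
  filter_upwards [hc, ev1, ev2, ev3, ev4, ev5, ev5', ev6, ev7, self_mem_nhdsWithin] with α hα h1 h2
    h3 h4 h5 h5' h6 h7 hα0
  have hα0' : 0 < α := hα0
  intro K ν ℓ hHY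
  obtain ⟨n, hn1, hn2, hobj⟩ := hα K ν ℓ hHY
  obtain ⟨hprob, hexp, hℓ, hHK, hMM⟩ := hHY
  obtain ⟨M, G, A, hM1, hG1, hGM, hA, hMX, hAM, hGX, hGX'⟩ :=
    numbers (Real.exp (η / α ^ 2)) u ms hms hu0 hu1 h1
  obtain ⟨β, hβ⟩ : ∃ β : ℝ, β = η / α ^ 2 := ⟨_, rfl⟩
  obtain ⟨v, hv⟩ : ∃ v : ℝ, v = 1 / α := ⟨_, rfl⟩
  obtain ⟨κ, hκ⟩ : ∃ κ : ℝ, κ = e1 * α / 2 := ⟨_, rfl⟩
  obtain ⟨γ, hγ⟩ : ∃ γ : ℝ, γ = 1 / (1 + α) := ⟨_, rfl⟩
  have hβ0 : 0 < β := by rw [hβ]; positivity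
  have hv0 : 0 < v := by rw [hv]; positivity
  have hαv : α * v = 1 := by rw [hv]; field_simp
  have hβv : β = η * v ^ 2 := by rw [hβ, hv]; field_simp
  have hv4 : 4 ≤ v := by rw [hv, le_div_iff₀ hα0']; linarith
  have hvms' : (ms : ℝ) + (ms + 1) * η ≤ v := by
    rw [hv, le_div_iff₀ hα0']
    rw [lt_div_iff₀ (by positivity)] at h5'
    linarith
  have hvms : (ms : ℝ) ≤ v := by linarith
  have hvη : ((ms : ℝ) + 1) * η ≤ v := by linarith
  have hv1η : 1 + η ≤ v := by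
    rw [hv, le_div_iff₀ hα0']
    rw [lt_div_iff₀ (by positivity)] at h7
    linarith
  have hα1 : α < 1 := by linarith
  have hα' : 0 < 1 + α := by linarith
  have hκ0 : 0 < κ := by rw [hκ]; positivity
  have hκ1 : κ ≤ 1 := by rw [hκ]; nlinarith
  have hγ0 : 0 < γ := by rw [hγ]; positivity
  have hγ1 : γ ≤ 1 := by rw [hγ, div_le_one hα']; linarith
  obtain ⟨HH, hHH⟩ : ∃ HH : ℝ, HH = ∑ g ∈ Finset.Ico 2 (G + 2), 1 / ((g : ℝ) + 1) := ⟨_, rfl⟩
  obtain ⟨hH1, hH2⟩ := (hAS2 α hα0').2.2 G hG1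
  rw [← hHH] at hH1 hH2
  have hHH0 : 0 ≤ HH := by rw [hHH]; exact Finset.sum_nonneg fun g _ => by positivity
  have hκγ1 : κ ^ γ ≤ 1 := Real.rpow_le_one hκ0.le hκ1 hγ0.le
  have hκγ : κ ≤ κ ^ γ := by
    have := Real.rpow_le_rpow_of_exponent_ge hκ0 hκ1 hγ1
    rwa [Real.rpow_one] at this
  have hG0 : (0 : ℝ) < G := by exact_mod_cast hG1
  rw [← hβ] at hMX hGX hGX' hn2
  have hlogG : β - C' + 2 ≤ Real.log G := by
    have h8 : Real.log (u / (8 * ms) * Real.exp β) ≤ Real.log G :=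
      Real.log_le_log (by positivity) hGX
    rw [Real.log_mul (by positivity) (by positivity), Real.log_exp] at h8
    rw [hC']; linarith
  have hlogG2 : Real.log G ≤ β := by
    have := Real.log_le_log hG0 hGX'
    rwa [Real.log_exp] at this
  have hω := omega_le α β κ γ e1 e η C' HH (Real.log G) hα0' hα1 he10 hκ hβ hκγ hHH0 hC'0 hH1
    hlogG h6
  have hR := R_le (κ ^ γ) HH β η v hκγ1 hHH0 (by linarith) hβv hv4 hv1η
  have hn0 : (0 : ℝ) < n := by exact_mod_cast hn1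
  have hMn : (M : ℝ) * n ≤ Real.exp (β * (l + 3 / 2)) := by
    calc (M : ℝ) * n ≤ Real.exp β * Real.exp (β * (l + 1 / 2)) :=
          mul_le_mul hMX hn2 hn0.le (Real.exp_pos _).le
      _ = Real.exp (β * (l + 3 / 2)) := by rw [← Real.exp_add]; congr 1; ring
  have h4' : α * ((l : ℝ) + 2) ≤ 1 / 4 := by
    rw [lt_div_iff₀ (by positivity)] at h4
    linarith
  rw [← hv] at h2 h3
  have hlink := link_ge α β κ e1 η v l ((G + 2) * n) hα0' hβ0 hκ hκ0 hβ hαv (by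
      rw [Nat.cast_mul]; positivity) (by
      refine le_trans ?_ hMn
      have : ((G + 2 : ℕ) : ℝ) ≤ M := by exact_mod_cast hGM
      rw [Nat.cast_mul]
      exact mul_le_mul_of_nonneg_right this hn0.le) h4' h2
  have hp := p_le α β η v u (M * n) l c hα0' hβ0 hv0 hβ hMn h4' h3
  have hp' : (M : ℝ) * (n * v ^ c * Real.exp (-(β * ((l + 3 : ℕ) : ℝ) / (1 + α)))) ≤ u / 8 := by
    refine le_trans (le_of_eq ?_) hp
    ring
  have hE1 : (1 : ℝ) ≤ Real.exp (v ^ c) := Real.one_le_exp (by positivity)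
  have hC1 : (1 : ℝ) ≤ v ^ c := one_le_pow₀ (by linarith)
  have hR1 : (1 : ℝ) ≤ v ^ 3 := one_le_pow₀ (by linarith)
  rw [← hv, ← hβ] at hobj
  rw [← hκ] at hHK
  have h2α : (0 : ℝ) < 2 * α := by positivity
  have hstep := hSTP K ν ℓ α β κ n J (fun j => 2 * α * t j) (v ^ c) (Real.exp (v ^ c)) hℓ hα0'
    hβ0.le hκ0 hκ1 hHK hn1 hC1 hE1 hobj (fun j => mul_nonneg h2α.le (ht j))
    (l + 3) M G A ms (by omega) hms hG1 hA hlink (e * η / (2 * α)) e (u / 8) (v ^ 3)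
    (div_nonneg (mul_nonneg he0.le hη.le) h2α.le) (by rw [← hγ, ← hHH]; exact hω) hp' he0.le
    (by linarith) (by
      have : e = 1 - u := by rw [hu]; ring
      rw [this]; exact hAM) hR1 (by rw [← hγ, ← hHH]; exact hR)
  refine ⟨M * n, Nat.mul_pos hM1 hn1, ?_, ?_⟩
  · push_cast
    have : η / α ^ 2 * ((l : ℝ) + 1 + 1 / 2) = β * (l + 3 / 2) := by rw [hβ]; ring
    rw [this]
    exact hMn
  · rw [← hv, ← hβ]
    refine hOMN K ν ℓ α β (M * n) (ms * J) (ms * J) _ _ _ _ _ _ hstep le_rfl ?_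
      (const_one v c ms hv4 hvms) (const_two v β η c ms M hms hv4 hvms hvη hβv hMX)
    intro j _
    exact (nx_scale t (l + 3) ms (2 * α) (e * η) e h2α.ne' j).ge

end Pool.Agent.H98.CEL
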