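import Pool.Agent.H98.CE.Targets

/-!
# Expansion of the sum of all stretches
-/

set_option autoImplicit false

open MeasureTheory ProbabilityTheory Filter Topology
open Pool.Agent.H95 Pool.Agent.H95.Cop Pool.Agent.H98.CE
open Pool.Agent.H55.CG (pz VV Mo)

namespace Pool.Agent.H98.CEL

lemma uu_nn (K : PMF ℕ) (n : ℕ) : 0 ≤ uu (kk K) n := by
  induction n using Nat.strong_induction_on with
  | _ n ih =>
    cases n with
    | zero => rw [uu_zero]; norm_num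
    | succ n =>
      rw [uu_succ]
      refine Finset.sum_nonneg fun j _ => mul_nonneg (kk_nonneg K _) (ih _ ?_)
      omega

lemma sum_rg (N p q : ℕ) (h : q ≤ N) (f : ℕ → ℝ) :
    ∑ y ∈ Finset.range N, (if p ≤ y ∧ y < q then f y else 0) = ∑ y ∈ Finset.Ico p q, f y := by
  rw [← Finset.sum_filter]
  congr 1
  ext y
  simp only [Finset.mem_filter, Finset.mem_range, Finset.mem_Ico]
  omega

/-- the index set -/
def IX (N ℓ : ℕ) (A B : Finset ℕ) : Finset (ℕ × ℕ × ℕ × ℕ × ℕ × ℕ) :=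
  (A ×ˢ B ×ˢ Finset.range N ×ˢ Finset.range N ×ˢ Finset.range N ×ˢ Finset.range N).filter
    fun i => (i.1 * ℓ ≤ i.2.2.1 ∧ i.2.2.1 < (i.1 + 1) * ℓ) ∧
      (i.2.2.1 ≤ i.2.2.2.1 ∧ i.2.2.2.1 < (i.1 + 1) * ℓ) ∧
      (i.2.1 * ℓ ≤ i.2.2.2.2.1 ∧ i.2.2.2.2.1 < (i.2.1 + 1) * ℓ) ∧
      (i.2.2.2.2.1 ≤ i.2.2.2.2.2 ∧ i.2.2.2.2.2 < (i.2.1 + 1) * ℓ)

lemma sum_IX (N ℓ : ℕ) (A B : Finset ℕ) (hA : ∀ a ∈ A, (a + 1) * ℓ ≤ N)
    (hB : ∀ b ∈ B, (b + 1) * ℓ ≤ N) (F : ℕ → ℕ → ℕ → ℕ → ℕ → ℕ → ℝ) :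
    ∑ i ∈ IX N ℓ A B, F i.1 i.2.1 i.2.2.1 i.2.2.2.1 i.2.2.2.2.1 i.2.2.2.2.2 =
      ∑ a ∈ A, ∑ b ∈ B, ∑ y ∈ Finset.Ico (a * ℓ) ((a + 1) * ℓ),
        ∑ y' ∈ Finset.Ico y ((a + 1) * ℓ), ∑ z ∈ Finset.Ico (b * ℓ) ((b + 1) * ℓ),
          ∑ z' ∈ Finset.Ico z ((b + 1) * ℓ), F a b y y' z z' := by
  unfold IX
  rw [Finset.sum_filter]
  simp only [Finset.sum_product]
  refine Finset.sum_congr rfl fun a ha => Finset.sum_congr rfl fun b hb => ?_
  rw [← sum_rg N (a * ℓ) ((a + 1) * ℓ) (hA a ha)]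
  refine Finset.sum_congr rfl fun y _ => ?_
  by_cases h1 : a * ℓ ≤ y ∧ y < (a + 1) * ℓ
  · simp only [h1, true_and, and_self, if_true]
    rw [← sum_rg N y ((a + 1) * ℓ) (hA a ha)]
    refine Finset.sum_congr rfl fun y' _ => ?_
    by_cases h2 : y ≤ y' ∧ y' < (a + 1) * ℓ
    · simp only [h2, true_and, and_self, if_true]
      rw [← sum_rg N (b * ℓ) ((b + 1) * ℓ) (hB b hb)]
      refine Finset.sum_congr rfl fun z _ => ?_
      by_cases h3 : b * ℓ ≤ z ∧ z < (b + 1) * ℓ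
      · simp only [h3, true_and, and_self, if_true]
        rw [← sum_rg N z ((b + 1) * ℓ) (hB b hb)]
      · simp [h3]
    · simp [h2]
  · simp [h1]

/-- the mass of the pairs of a cell -/
lemma VV_cell (K : PMF ℕ) (ℓ a : ℕ) :
    ∑ y ∈ Finset.Ico (a * ℓ) ((a + 1) * ℓ), ∑ y' ∈ Finset.Ico y ((a + 1) * ℓ),
      uu (kk K) (y' - y) = VV K ℓ := by
  unfold VV
  have h1 : (a + 1) * ℓ = ℓ + a * ℓ := by ring
  rw [h1]
  have h2 : Finset.Ico (a * ℓ) (ℓ + a * ℓ) = Finset.Ico (0 + a * ℓ) (ℓ + a * ℓ) := by simp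
  rw [h2, ← Finset.sum_Ico_add', Finset.range_eq_Ico]
  refine Finset.sum_congr rfl fun y _ => ?_
  rw [← Finset.sum_Ico_add']
  refine Finset.sum_congr rfl fun z _ => ?_
  congr 1
  omega

lemma H_comb (x : ℕ → ℝ) (y y' z z' p q : ℕ) (h1 : y' ≤ p) (h2 : p ≤ q) (h3 : q ≤ z) :
    (H x y y' / 2 + H x y' p) + H x p q + (H x q z + H x z z' / 2) = ey x y y' z z' := by
  have e1 : H x y' p + H x p q = H x y' q := Finset.sum_Ico_consecutive _ h1 h2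
  have e2 : H x y' q + H x q z = H x y' z := Finset.sum_Ico_consecutive _ (h1.trans h2) h3
  unfold ey
  linarith

theorem pf_AEX (hPCB : T_PCB) : T_AEX := by
  intro K ℓ α κ aY aV S T hℓ hκ
  obtain ⟨hV, -⟩ := hPCB K ℓ hℓ
  set A := Finset.Ico (S * (aY + aV) + aY) ((S + 1) * (aY + aV)) with hA
  set B := Finset.Ico (T * (aY + aV) + aY) ((T + 1) * (aY + aV)) with hB
  set N := ((S + 1) * (aY + aV) + (T + 1) * (aY + aV)) * ℓ with hN
  have hAN : ∀ a ∈ A, (a + 1) * ℓ ≤ N := by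
    intro a ha
    rw [hA, Finset.mem_Ico] at ha
    rw [hN]
    exact Nat.mul_le_mul_right _ (by omega)
  have hBN : ∀ b ∈ B, (b + 1) * ℓ ≤ N := by
    intro b hb
    rw [hB, Finset.mem_Ico] at hb
    rw [hN]
    exact Nat.mul_le_mul_right _ (by omega)
  refine ⟨IX N ℓ A B, fun i => lk α κ (i.2.1 + 1 - i.1) *
    (uu (kk K) (i.2.2.2.1 - i.2.2.1) / VV K ℓ) *
    (uu (kk K) (i.2.2.2.2.2 - i.2.2.2.2.1) / VV K ℓ), ?_, ?_, ?_⟩
  · intro a b y y' z z' hi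
    unfold IX at hi
    rw [Finset.mem_filter] at hi
    simp only [Finset.mem_product, hA, hB, Finset.mem_Ico] at hi
    obtain ⟨⟨⟨a1, a2⟩, ⟨b1, b2⟩, -⟩, ⟨y1, y2⟩, ⟨y3, y4⟩, ⟨z1, z2⟩, ⟨z3, z4⟩⟩ := hi
    refine ⟨?_, a1, a2, b1, b2, y1, y3, y4, z1, z3, z4⟩
    have h1 : 0 ≤ lk α κ (b + 1 - a) := mul_nonneg hκ (Real.rpow_nonneg (Nat.cast_nonneg _) _)
    have h2 := uu_nn K (y' - y)
    have h3 := uu_nn K (z' - z)
    positivity
  · rw [sum_IX N ℓ A B hAN hBN (fun a b y y' z z' => lk α κ (b + 1 - a) *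
      (uu (kk K) (y' - y) / VV K ℓ) * (uu (kk K) (z' - z) / VV K ℓ))]
    refine Finset.sum_congr rfl fun a _ => Finset.sum_congr rfl fun b _ => ?_
    simp only [← Finset.mul_sum, ← Finset.sum_mul, ← Finset.sum_div]
    rw [VV_cell, VV_cell, div_self hV.ne']
    ring
  · intro hST haY x
    have h := sum_IX N ℓ A B hAN hBN (fun a b y y' z z' => lk α κ (b + 1 - a) *
      (uu (kk K) (y' - y) / VV K ℓ) * (uu (kk K) (z' - z) / VV K ℓ) *
      Real.exp (ey x y y' z z'))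
    rw [h]
    unfold AA
    refine Finset.sum_congr rfl fun a ha => Finset.sum_congr rfl fun b hb => ?_
    rw [hA, Finset.mem_Ico] at ha
    rw [hB, Finset.mem_Ico] at hb
    have hab : a + 1 ≤ b := by
      have : (S + 1) * (aY + aV) ≤ T * (aY + aV) := Nat.mul_le_mul_right _ hST
      omega
    unfold st Rr Ll
    rw [Finset.sum_div, Finset.sum_div]
    simp only [Finset.sum_div]
    rw [Finset.sum_mul, Finset.sum_mul, Finset.mul_sum]
    refine Finset.sum_congr rfl fun y hy => ?_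
    rw [Finset.sum_mul, Finset.sum_mul, Finset.mul_sum]
    refine Finset.sum_congr rfl fun y' hy' => ?_
    rw [Finset.mul_sum, Finset.mul_sum]
    refine Finset.sum_congr rfl fun z hz => ?_
    rw [Finset.mul_sum, Finset.mul_sum]
    refine Finset.sum_congr rfl fun z' hz' => ?_
    rw [Finset.mem_Ico] at hy hy' hz hz'
    rw [← H_comb x y y' z z' ((a + 1) * ℓ) (b * ℓ) hy'.2.le (Nat.mul_le_mul_right _ hab) hz.1,
      Real.exp_add (H x y y' / 2 + H x y' ((a + 1) * ℓ) + H x ((a + 1) * ℓ) (b * ℓ)),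
      Real.exp_add (H x y y' / 2 + H x y' ((a + 1) * ℓ))]
    ring

end Pool.Agent.H98.CEL
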