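import Pool.Agent.H98.CEL.AEX

/-!
# The moment of order `1 / (1 + α)` of all stretches between two windows
-/

set_option autoImplicit false

open MeasureTheory ProbabilityTheory Filter Topology
open Pool.Agent.H95 Pool.Agent.H95.Cop Pool.Agent.H98.CE
open Pool.Agent.H55.CG (pz VV Mo)

namespace Pool.Agent.H98.CEL

/-- the sum of the weights from below -/
lemma weights_ge (α κ : ℝ) (aY aV S T : ℕ) (hα : 0 < α) (hκ : 0 < κ) (hV : 1 ≤ aV)
    (hST : S < T) :
    (aV : ℝ) ^ 2 * κ * (((T - S + 1) * (aY + aV) : ℕ) : ℝ) ^ (-(1 + α)) ≤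
      ∑ a ∈ Finset.Ico (S * (aY + aV) + aY) ((S + 1) * (aY + aV)),
        ∑ b ∈ Finset.Ico (T * (aY + aV) + aY) ((T + 1) * (aY + aV)), lk α κ (b + 1 - a) := by
  have e1 : (T - S + 1) * (aY + aV) + S * (aY + aV) = (T + 1) * (aY + aV) := by
    rw [← Nat.add_mul]
    congr 1
    omega
  have hc : ∀ R : ℕ, (Finset.Ico (R * (aY + aV) + aY) ((R + 1) * (aY + aV))).card = aV := by
    intro R
    rw [Nat.card_Ico]
    have : (R + 1) * (aY + aV) = R * (aY + aV) + (aY + aV) := by ring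
    omega
  have h1 : ∀ a ∈ Finset.Ico (S * (aY + aV) + aY) ((S + 1) * (aY + aV)),
      ∀ b ∈ Finset.Ico (T * (aY + aV) + aY) ((T + 1) * (aY + aV)),
      κ * (((T - S + 1) * (aY + aV) : ℕ) : ℝ) ^ (-(1 + α)) ≤ lk α κ (b + 1 - a) := by
    intro a ha b hb
    rw [Finset.mem_Ico] at ha hb
    have hab : a + 1 ≤ b := by
      have : (S + 1) * (aY + aV) ≤ T * (aY + aV) := Nat.mul_le_mul_right _ hST
      omega
    unfold lk
    apply mul_le_mul_of_nonneg_left _ hκ.le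
    apply Real.rpow_le_rpow_of_nonpos
    · have : 0 < b + 1 - a := by omega
      exact_mod_cast this
    · have : b + 1 - a ≤ (T - S + 1) * (aY + aV) := by omega
      exact_mod_cast this
    · linarith
  calc (aV : ℝ) ^ 2 * κ * (((T - S + 1) * (aY + aV) : ℕ) : ℝ) ^ (-(1 + α))
      = ∑ a ∈ Finset.Ico (S * (aY + aV) + aY) ((S + 1) * (aY + aV)),
        ∑ b ∈ Finset.Ico (T * (aY + aV) + aY) ((T + 1) * (aY + aV)),
          κ * (((T - S + 1) * (aY + aV) : ℕ) : ℝ) ^ (-(1 + α)) := by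
        simp only [Finset.sum_const, hc, nsmul_eq_mul]
        ring
    _ ≤ _ := Finset.sum_le_sum fun a ha => Finset.sum_le_sum fun b hb => h1 a ha b hb

/-- concavity -/
lemma conc {ι : Type*} (s : Finset ι) (c E : ι → ℝ) (g : ℝ) (hg0 : 0 ≤ g) (hg1 : g ≤ 1)
    (hc : ∀ i ∈ s, 0 ≤ c i) (hC : 0 < ∑ i ∈ s, c i) (hE : ∀ i, 0 ≤ E i) :
    (∑ i ∈ s, c i) ^ g * ∑ i ∈ s, (c i / ∑ i ∈ s, c i) * E i ^ g ≤
      (∑ i ∈ s, c i * E i) ^ g := by
  set C := ∑ i ∈ s, c i with hCdef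
  have h := (Real.concaveOn_rpow hg0 hg1).le_map_sum (t := s) (w := fun i => c i / C)
    (p := E) (fun i hi => div_nonneg (hc i hi) hC.le)
    (by rw [← Finset.sum_div, div_self hC.ne']) (fun i _ => hE i)
  simp only [smul_eq_mul] at h
  have e1 : ∑ i ∈ s, c i / C * E i = (∑ i ∈ s, c i * E i) / C := by
    rw [Finset.sum_div]
    exact Finset.sum_congr rfl fun i _ => by ring
  rw [e1, Real.div_rpow (Finset.sum_nonneg fun i hi => mul_nonneg (hc i hi) (hE i)) hC.le] at h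
  have hCg : 0 < C ^ g := Real.rpow_pos_of_pos hC g
  have := mul_le_mul_of_nonneg_left h hCg.le
  rwa [mul_div_cancel₀ _ hCg.ne'] at this

theorem pf_BL1 (hAEX : T_AEX) (hAAM : T_AAM) (hTL1 : T_TL1) : T_BL1 := by
  classical
  intro K ν hprob hexp ℓ α κ aY aV np S T m hℓ hα hκ hY hV hST hT hm hlow
  obtain ⟨s, c, hs, hsum, hAA⟩ := hAEX K ℓ α κ aY aV S T hℓ hκ.le
  obtain ⟨hmA, hmsg, -, -⟩ := hAAM K ℓ α κ aY aV np S T
  have hα' : 0 < 1 + α := by linarith
  obtain ⟨γ, hγ⟩ : ∃ γ : ℝ, γ = 1 / (1 + α) := ⟨_, rfl⟩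
  rw [← hγ]
  rw [← hγ] at hlow
  have hγ0 : 0 < γ := by rw [hγ]; positivity
  have hγ1 : γ ≤ 1 := by rw [hγ, div_le_one hα']; linarith
  obtain ⟨L, hL⟩ : ∃ L : ℕ, L = (T - S + 1) * (aY + aV) := ⟨_, rfl⟩
  have hL1 : 1 ≤ L := by rw [hL]; exact Nat.mul_pos (by omega) (by omega)
  have hL0 : (0 : ℝ) < L := by exact_mod_cast hL1
  have hV0 : (0 : ℝ) < aV := by exact_mod_cast hV
  have hw := weights_ge α κ aY aV S T hα hκ hV hST
  rw [← hsum, ← hL] at hw
  rw [← hL]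
  set C := ∑ i ∈ s, c i with hC
  have hC0 : 0 < C := lt_of_lt_of_le (by positivity) hw
  have hci : ∀ i ∈ s, 0 ≤ c i := by
    rintro ⟨a, b, y, y', z, z'⟩ hi
    exact (hs a b y y' z z' hi).1
  set E : (ℕ × ℕ × ℕ × ℕ × ℕ × ℕ) → (ℕ → ℝ) → ℝ := fun i x =>
    Real.exp (ey x i.2.2.1 i.2.2.2.1 i.2.2.2.2.1 i.2.2.2.2.2) with hE
  have hE0 : ∀ i x, 0 ≤ E i x := fun i x => (Real.exp_pos _).le
  have hAAx : ∀ x, AA K ℓ α κ aY aV S T x = ∑ i ∈ s, c i * E i x := fun x => hAA hST hY x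
  have hint : ∀ i ∈ s, ∀ p : ℝ, Integrable (fun x => Real.exp (p * ey x i.2.2.1 i.2.2.2.1
      i.2.2.2.2.1 i.2.2.2.2.2)) (iid ν) := by
    rintro ⟨a, b, y, y', z, z'⟩ hi p
    obtain ⟨-, h1, h2, h3, h4, h5, h6, h7, h8, h9, h10⟩ := hs a b y y' z z' hi
    have hab : a + 1 ≤ b := by
      have : (S + 1) * (aY + aV) ≤ T * (aY + aV) := Nat.mul_le_mul_right _ hST
      omega
    have hyz : y' ≤ z := by
      have : (a + 1) * ℓ ≤ b * ℓ := Nat.mul_le_mul_right _ hab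
      omega
    have := ((hTL1 ν hexp p 0 y y' z z' 0 0 h6 hyz h9 le_rfl).1 (Or.inl (Nat.zero_le _))).1
    simpa using this
  have hEg : ∀ i x, E i x ^ γ = Real.exp (γ * ey x i.2.2.1 i.2.2.2.1 i.2.2.2.2.1 i.2.2.2.2.2) := by
    intro i x
    simp only [hE]
    rw [← Real.exp_mul]
    congr 1
    ring
  have hAAint : Integrable (fun x => AA K ℓ α κ aY aV S T x) (iid ν) := by
    have h1 : Integrable (fun x => ∑ i ∈ s, c i * E i x) (iid ν) :=
      integrable_finsetSum _ fun i hi => by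
        have := (hint i hi 1).const_mul (c i)
        simpa [hE] using this
    exact h1.congr (Eventually.of_forall fun x => (hAAx x).symm)
  have hAA0 : ∀ x, 0 ≤ AA K ℓ α κ aY aV S T x := fun x => by
    rw [hAAx]
    exact Finset.sum_nonneg fun i hi => mul_nonneg (hci i hi) (hE0 i x)
  have hAAg : Integrable (fun x => AA K ℓ α κ aY aV S T x ^ γ) (iid ν) := by
    refine Integrable.mono' ((integrable_const (1 : ℝ)).add hAAint) (hmA.pow_const γ).aestronglyMeasurable ?_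
    filter_upwards with x
    have h0 := hAA0 x
    rw [Real.norm_of_nonneg (Real.rpow_nonneg h0 _)]
    rcases le_total (AA K ℓ α κ aY aV S T x) 1 with h | h
    · have := Real.rpow_le_one h0 h hγ0.le
      show _ ≤ 1 + AA K ℓ α κ aY aV S T x
      linarith
    · have := Real.rpow_le_rpow_of_exponent_le h hγ1
      rw [Real.rpow_one] at this
      show _ ≤ 1 + AA K ℓ α κ aY aV S T x
      linarith
  -- indicator form
  have hind : ∀ f : (ℕ → ℝ) → ℝ, (fun x => if sg ℓ aY aV np S T x then f x else 0) =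
      Set.indicator {x : ℕ → ℝ | sg ℓ aY aV np S T x} f := by
    intro f
    funext x
    simp only [Set.indicator, Set.mem_setOf_eq]
  have hpt : ∀ x, C ^ γ * ∑ i ∈ s, (c i / C) *
      (if sg ℓ aY aV np S T x then Real.exp (γ * ey x i.2.2.1 i.2.2.2.1 i.2.2.2.2.1
        i.2.2.2.2.2) else 0) ≤
      (if sg ℓ aY aV np S T x then AA K ℓ α κ aY aV S T x ^ γ else 0) := by
    intro x
    by_cases h : sg ℓ aY aV np S T x
    · simp only [h, if_true]
      have := conc s c (fun i => E i x) γ hγ0.le hγ1 hci hC0 (fun i => hE0 i x)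
      rw [hAAx]
      simpa only [hEg] using this
    · simp [h]
  have hintS : ∀ i ∈ s, Integrable (fun x => if sg ℓ aY aV np S T x then
      Real.exp (γ * ey x i.2.2.1 i.2.2.2.1 i.2.2.2.2.1 i.2.2.2.2.2) else 0) (iid ν) := by
    intro i hi
    rw [hind]
    exact (hint i hi γ).indicator hmsg
  have hintL : Integrable (fun x => C ^ γ * ∑ i ∈ s, (c i / C) *
      (if sg ℓ aY aV np S T x then Real.exp (γ * ey x i.2.2.1 i.2.2.2.1 i.2.2.2.2.1
        i.2.2.2.2.2) else 0)) (iid ν) :=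
    (integrable_finsetSum _ fun i hi => (hintS i hi).const_mul _).const_mul _
  have hintR : Integrable (fun x => if sg ℓ aY aV np S T x then
      AA K ℓ α κ aY aV S T x ^ γ else 0) (iid ν) := by
    rw [hind]
    exact hAAg.indicator hmsg
  refine le_trans ?_ (integral_mono hintL hintR hpt)
  rw [integral_const_mul, integral_finsetSum _ fun i hi => (hintS i hi).const_mul _]
  simp only [integral_const_mul]
  have hCg : 0 < C ^ γ := Real.rpow_pos_of_pos hC0 γ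
  have h1 : m ≤ ∑ i ∈ s, c i / C * ∫ x : ℕ → ℝ, (if sg ℓ aY aV np S T x then
      Real.exp (γ * ey x i.2.2.1 i.2.2.2.1 i.2.2.2.2.1 i.2.2.2.2.2) else 0) ∂(iid ν) := by
    calc m = ∑ i ∈ s, c i / C * m := by
          rw [← Finset.sum_mul, ← Finset.sum_div, div_self hC0.ne', one_mul]
      _ ≤ _ := by
          refine Finset.sum_le_sum ?_
          rintro ⟨a, b, y, y', z, z'⟩ hi
          obtain ⟨h0, h1, h2, h3, h4, h5, h6, h7, h8, h9, h10⟩ := hs a b y y' z z' hi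
          exact mul_le_mul_of_nonneg_left (hlow a b y y' z z' h1 h2 h3 h4 h5 h6 h7 h8 h9 h10)
            (div_nonneg h0 hC0.le)
  have h2 : ((aV : ℝ) ^ 2) ^ γ * κ ^ γ / (L : ℝ) ≤ C ^ γ := by
    have h3 : ((aV : ℝ) ^ 2 * κ * (L : ℝ) ^ (-(1 + α))) ^ γ ≤ C ^ γ :=
      Real.rpow_le_rpow (by positivity) hw hγ0.le
    refine le_trans (le_of_eq ?_) h3
    rw [Real.mul_rpow (by positivity) (by positivity), Real.mul_rpow (by positivity) hκ.le,
      ← Real.rpow_mul hL0.le]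
    have : -(1 + α) * γ = -1 := by rw [hγ]; field_simp
    rw [this, Real.rpow_neg_one]
    ring
  calc ((aV : ℝ) ^ 2) ^ γ * κ ^ γ / (L : ℝ) * m ≤ C ^ γ * m := mul_le_mul_of_nonneg_right h2 hm
    _ ≤ _ := mul_le_mul_of_nonneg_left h1 hCg.le

end Pool.Agent.H98.CEL
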