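import Pool.Agent.H98.CE.Targets
import Pool.Agent.H59.CG.MOM

/-!
# Exponential moments on the scale of the cells
-/

set_option autoImplicit false

open MeasureTheory ProbabilityTheory Filter Topology
open Pool.Agent.H95 Pool.Agent.H95.Cop Pool.Agent.H98.CE
open Pool.Agent.H55.CG (pz VV Mo)
open Pool.Agent.H59.CG.MOM (FF Mo_eq)

namespace Pool.Agent.H98.CEL

theorem ff_tendsto (μ : Measure ℝ) [IsProbabilityMeasure μ]
    (hexp : ∀ t : ℝ, Integrable (fun z => Real.exp (t * z)) μ)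
    (hmean : ∫ z, z ∂μ = 0) (hvar : ∫ z, z ^ 2 ∂μ = 1) (g s : ℝ) :
    Tendsto (FF μ g s) (𝓝[>] 0) (𝓝 (2 * s ^ 2 - 2 * s * g)) := by
  rcases eq_or_ne s 0 with h0 | hs
  · subst h0
    have : FF μ g 0 = fun _ => (0 : ℝ) := by
      funext lam
      unfold FF LM
      simp
    rw [this]
    simp
  have hL := LM_tendsto μ hexp hmean hvar
  have haux : Tendsto (fun lam : ℝ => -(2 * lam * s)) (𝓝[>] 0) (𝓝[≠] 0) := by
    apply tendsto_nhdsWithin_iff.mpr
    constructor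
    · have : Tendsto (fun lam : ℝ => -(2 * lam * s)) (𝓝 0) (𝓝 (-(2 * 0 * s))) := by
        apply Continuous.tendsto; fun_prop
      simp only [mul_zero, zero_mul, neg_zero] at this
      exact this.mono_left nhdsWithin_le_nhds
    · filter_upwards [self_mem_nhdsWithin] with lam hlam
      have h1 : (0 : ℝ) < lam := hlam
      have : -(2 * lam * s) ≠ 0 := neg_ne_zero.mpr (mul_ne_zero (by positivity) hs)
      exact this
  have h1 := (hL.comp haux).mul_const (4 * s ^ 2)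
  have h2 := h1.sub_const (2 * s * g)
  have e : (1 / 2 : ℝ) * (4 * s ^ 2) - 2 * s * g = 2 * s ^ 2 - 2 * s * g := by ring
  rw [e] at h2
  refine h2.congr' ?_
  filter_upwards [self_mem_nhdsWithin] with lam hlam
  have hl : 0 < lam := hlam
  simp only [Function.comp_apply]
  unfold FF
  field_simp
  ring

theorem gg_tendsto (ϑ : ℝ) (hϑ : 0 < ϑ) :
    Tendsto (fun lam : ℝ => ((⌈ϑ / lam ^ 2⌉₊ : ℕ) : ℝ) * lam ^ 2) (𝓝[>] 0) (𝓝 ϑ) := by
  have hup : Tendsto (fun lam : ℝ => ϑ + lam ^ 2) (𝓝[>] 0) (𝓝 ϑ) := by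
    have : Tendsto (fun lam : ℝ => ϑ + lam ^ 2) (𝓝 0) (𝓝 (ϑ + 0 ^ 2)) := by
      apply Continuous.tendsto; fun_prop
    rw [zero_pow two_ne_zero, add_zero] at this
    exact this.mono_left nhdsWithin_le_nhds
  refine tendsto_of_tendsto_of_tendsto_of_le_of_le' tendsto_const_nhds hup ?_ ?_
  · filter_upwards [self_mem_nhdsWithin] with lam hlam
    have hl : 0 < lam := hlam
    have h := Nat.le_ceil (ϑ / lam ^ 2)
    have h2 : 0 < lam ^ 2 := by positivity
    rw [div_le_iff₀ h2] at h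
    exact h
  · filter_upwards [self_mem_nhdsWithin] with lam hlam
    have hl : 0 < lam := hlam
    have h2 : 0 < lam ^ 2 := by positivity
    have h0 : 0 ≤ ϑ / lam ^ 2 := by positivity
    have h := (Nat.ceil_lt_add_one h0).le
    have h3 := mul_le_mul_of_nonneg_right h h2.le
    have h4 : (ϑ / lam ^ 2 + 1) * lam ^ 2 = ϑ + lam ^ 2 := by field_simp
    linarith

theorem pf_MOL : T_MOL := by
  intro μ _ hexp hmean hvar g ϑ u hϑ
  have h1 := ff_tendsto μ hexp hmean hvar g u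
  have h2 := (gg_tendsto ϑ hϑ).mul h1
  have h3 := (Real.continuous_exp.tendsto _).comp h2
  have e : ϑ * (2 * u ^ 2 - 2 * u * g) = ϑ * (2 * u ^ 2 - 2 * g * u) := by ring
  rw [e] at h3
  refine h3.congr' ?_
  filter_upwards [self_mem_nhdsWithin] with lam hlam
  have hl : 0 < lam := hlam
  simp only [Function.comp_apply]
  rw [Mo_eq μ hexp g u lam hl, ← Real.exp_nat_mul]
  congr 1
  ring

/-- a power with limit below one has base at most one -/
lemma le_one_of_pow (m : ℝ) (L : ℕ) (h : m ^ L < 1) : m ≤ 1 := by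
  by_contra hm
  push Not at hm
  exact absurd (one_le_pow₀ (n := L) hm.le) (not_le.mpr h)

theorem pf_MOE (hMOL : T_MOL) : T_MOE := by
  intro μ _ hexp hmean hvar γ δ ϑ s hγ1 hγ2 hδ hδ2 hϑ hs hs2
  have hL := fun u => hMOL μ hexp hmean hvar (γ + δ) ϑ u hϑ
  have hE : ∀ x y : ℝ, x < y → Real.exp (ϑ * x) < Real.exp (ϑ * y) := fun x y h =>
    Real.exp_lt_exp.mpr (mul_lt_mul_of_pos_left h hϑ)
  have hE1 : ∀ x : ℝ, x < 0 → Real.exp (ϑ * x) < 1 := fun x h => by
    have := hE x 0 h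
    simpa using this
  have hγ : 0 < γ := by linarith
  have hγδ : 0 < γ * δ := mul_pos hγ hδ
  have hγδ1 : γ * δ < δ := by nlinarith
  have l1 := (hL γ).eventually_lt_const (hE1 (2 * γ ^ 2 - 2 * (γ + δ) * γ) (by nlinarith))
  have l2 := (hL (γ / 2)).eventually_lt_const
    (hE1 (2 * (γ / 2) ^ 2 - 2 * (γ + δ) * (γ / 2)) (by nlinarith))
  have hγs : 0 < γ - s := by linarith
  have l3 := (hL (γ - s)).eventually_lt_const
    (hE1 (2 * (γ - s) ^ 2 - 2 * (γ + δ) * (γ - s)) (by nlinarith [mul_pos hγs hs, mul_pos hγs hδ]))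
  have l4 := (hL (1 / 2)).eventually_lt_const
    (hE1 (2 * (1 / 2) ^ 2 - 2 * (γ + δ) * (1 / 2)) (by nlinarith))
  have l5 := (hL γ).eventually_const_lt (hE (-2 * δ) (2 * γ ^ 2 - 2 * (γ + δ) * γ) (by nlinarith))
  have l6 := (hL (γ / 2)).eventually_const_lt
    (hE (-2) (2 * (γ / 2) ^ 2 - 2 * (γ + δ) * (γ / 2)) (by nlinarith))
  have l7 := ((hL (γ / 2)).sub ((hL γ).const_mul (Real.exp (-ϑ / 4)))).eventually_lt_const
    (show Real.exp (ϑ * (2 * (γ / 2) ^ 2 - 2 * (γ + δ) * (γ / 2))) -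
      Real.exp (-ϑ / 4) * Real.exp (ϑ * (2 * γ ^ 2 - 2 * (γ + δ) * γ)) < 0 by
      rw [← Real.exp_add, sub_neg]
      have e : -ϑ / 4 + ϑ * (2 * γ ^ 2 - 2 * (γ + δ) * γ) =
          ϑ * (-1 / 4 + (2 * γ ^ 2 - 2 * (γ + δ) * γ)) := by ring
      rw [e]
      exact hE _ _ (by nlinarith))
  have l8 := (hL (γ - s)).eventually_lt_const
    (hE (2 * (γ - s) ^ 2 - 2 * (γ + δ) * (γ - s)) (-2 * (γ - s) * s)
      (by nlinarith [mul_pos hγs hδ]))
  have l9 := (hL 1).eventually_lt_const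
    (hE (2 * 1 ^ 2 - 2 * (γ + δ) * 1) 2 (by nlinarith))
  have l10 := (hL (-1 / 2)).eventually_lt_const
    (hE (2 * (-1 / 2) ^ 2 - 2 * (γ + δ) * (-1 / 2)) 2 (by nlinarith))
  have l11 := (hL (2 * γ)).eventually_lt_const
    (hE (2 * (2 * γ) ^ 2 - 2 * (γ + δ) * (2 * γ)) 8 (by nlinarith))
  filter_upwards [l1, l2, l3, l4, l5, l6, l7, l8, l9, l10, l11] with lam m1 m2 m3 m4 m5 m6 m7 m8
    m9 m10 m11
  refine ⟨le_one_of_pow _ _ m1, le_one_of_pow _ _ m2, le_one_of_pow _ _ m3, le_one_of_pow _ _ m4,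
    ?_, ?_, ?_, ?_, ?_, ?_, ?_⟩
  · refine le_trans (le_of_eq ?_) m5.le
    congr 1; ring
  · refine le_trans (le_of_eq ?_) m6.le
    congr 1; ring
  · linarith
  · refine m8.le.trans (le_of_eq ?_)
    congr 1; ring
  · refine m9.le.trans (le_of_eq ?_)
    congr 1; ring
  · refine m10.le.trans (le_of_eq ?_)
    congr 1; ring
  · refine m11.le.trans (le_of_eq ?_)
    congr 1; ring

end Pool.Agent.H98.CEL
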